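import Pool.Agent.EXL.GreenHS
import Pool.Agent.EXL.H1c

/-!
# NUZ/InjD (helper15): the columns on the states whose walk is complete

A function on the dead states (the ends `b`, `t` are joined) is pulled back to the live states in which both
ends are occupied, by opening the walk and the arc next to it.  The pull back commutes with the columns, and
the live states have the majorant `F - FF m`, which tends to 0.
-/

set_option autoImplicit false

namespace Pool.Agent.EXL.HS

open Filter Topology _root_.Pool.Agent.EXL.Pat _root_.Pool.Agent.EXL.HS.Pat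

variable {α K : Type*} [DecidableEq α] [CommRing K]

/-- both ends are occupied. -/
def BO (b t : α) (p : Pat α) : Prop := p b ≠ b ∧ p t ≠ t

/-- the partners of the ends are joined, and the ends are joined. -/
def close (b t : α) (p : Pat α) : Pat α := Pat.cup b t (Pat.cut b t p)

/-- the pull back of a function to the live states with both ends occupied. -/
noncomputable def opn (b t : α) (G : Pat α → K) : Pat α → K :=
  open scoped Classical in fun p => if BO b t p ∧ p b ≠ t then G (close b t p) else 0

theorem opn_pos {b t : α} {G : Pat α → K} {p : Pat α} (h : BO b t p) (h' : p b ≠ t) :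
    opn b t G p = G (close b t p) := by
  unfold opn
  rw [if_pos ⟨h, h'⟩]

theorem opn_neg {b t : α} {G : Pat α → K} {p : Pat α} (h : ¬ (BO b t p ∧ p b ≠ t)) :
    opn b t G p = 0 := by
  unfold opn
  rw [if_neg h]

theorem close_apply {b t : α} (hbt : b ≠ t) {p : Pat α} (h : BO b t p) (h' : p b ≠ t) (x : α) :
    close b t p x = if x = b then t else if x = t then b else if x = p b then p t
      else if x = p t then p b else p x := by
  obtain ⟨h1, h2⟩ := h
  have hc : b ≠ t ∧ p b ≠ b ∧ p t ≠ t ∧ p b ≠ t := ⟨hbt, h1, h2, h'⟩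
  have e1 : cut b t p b = b := by rw [cut_apply_pos hc, if_pos rfl]
  have e2 : cut b t p t = t := by rw [cut_apply_pos hc, if_neg hbt.symm, if_pos rfl]
  unfold close
  rw [cup_apply_pos ⟨e1, e2⟩, cut_apply_pos hc]
  split_ifs <;> rfl

/-- the operator commutes with the pull back on the states with both ends occupied, and preserves them. -/
structure CommO (b t : α) (X : (Pat α → K) → (Pat α → K)) : Prop where
  pres : Pres (BO b t) (BO b t) X
  comm : ∀ G p, BO b t p → X (opn b t G) p = opn b t (X G) p

theorem CommO.comp {b t : α} {X Y : (Pat α → K) → (Pat α → K)} (hX : CommO b t X) (hY : CommO b t Y) :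
    CommO b t (fun F => X (Y F)) where
  pres := hX.pres.comp hY.pres
  comm G p hp := by
    show X (Y (opn b t G)) p = opn b t (X (Y G)) p
    rw [hX.pres _ _ (fun q hq => hY.comm G q hq) p hp]
    exact hX.comm _ p hp

theorem CommO.id (b t : α) : CommO (K := K) b t (fun F => F) where
  pres := Pres.id _
  comm _ _ _ := rfl

section prim

variable {b t i j c : α} {p : Pat α}

theorem bo_swap (hib : i ≠ b) (hit : i ≠ t) (hjb : j ≠ b) (hjt : j ≠ t) (h : BO b t p) :
    BO b t (swap i j p) := by
  obtain ⟨h1, h2⟩ := h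
  constructor
  · rw [swap_apply, Equiv.swap_apply_of_ne_of_ne hib.symm hjb.symm, Equiv.swap_apply_def]
    grind
  · rw [swap_apply, Equiv.swap_apply_of_ne_of_ne hit.symm hjt.symm, Equiv.swap_apply_def]
    grind

theorem bo_cup (hib : i ≠ b) (hit : i ≠ t) (hjb : j ≠ b) (hjt : j ≠ t) (h : BO b t p) :
    BO b t (cup i j p) := by
  by_cases hc : p i = i ∧ p j = j
  · obtain ⟨h1, h2⟩ := h
    constructor
    · rw [cup_apply_pos hc, if_neg hib.symm, if_neg hjb.symm]
      exact h1
    · rw [cup_apply_pos hc, if_neg hit.symm, if_neg hjt.symm]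
      exact h2
  · rw [cup_neg hc]
    exact h

theorem bo_cut (hib : i ≠ b) (hit : i ≠ t) (hjb : j ≠ b) (hjt : j ≠ t) (h : BO b t p) :
    BO b t (cut i j p) := by
  by_cases hc : i ≠ j ∧ p i ≠ i ∧ p j ≠ j ∧ p i ≠ j
  · obtain ⟨h1, h2⟩ := h
    have hp := p.inv
    constructor
    · rw [cut_apply_pos hc]
      grind
    · rw [cut_apply_pos hc]
      grind
  · rw [cut_neg hc]
    exact h

/-- the closing of a live state moves with the exchange of two lines. -/
theorem close_swap (hbt : b ≠ t) (hib : i ≠ b) (hit : i ≠ t) (hjb : j ≠ b) (hjt : j ≠ t) (h : BO b t p)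
    (h' : p b ≠ t) : swap i j p b ≠ t ∧ close b t (swap i j p) = swap i j (close b t p) := by
  have hs1 : Equiv.swap i j b = b := Equiv.swap_apply_of_ne_of_ne hib.symm hjb.symm
  have hs2 : Equiv.swap i j t = t := Equiv.swap_apply_of_ne_of_ne hit.symm hjt.symm
  have hs3 : ∀ x, Equiv.swap i j (Equiv.swap i j x) = x := fun x => Equiv.swap_apply_self i j x
  have hb : swap i j p b ≠ t := by
    rw [swap_apply]
    grind
  have hp := p.inv
  refine ⟨hb, ?_⟩
  ext x
  rw [close_apply hbt (bo_swap hib hit hjb hjt h) hb, swap_apply, swap_apply, swap_apply, swap_apply,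
    close_apply hbt h h']
  generalize (Equiv.swap i j : α → α) = σ at hs1 hs2 hs3
  grind

theorem close_cup (hbt : b ≠ t) (hib : i ≠ b) (hit : i ≠ t) (hjb : j ≠ b) (hjt : j ≠ t) (h : BO b t p)
    (h' : p b ≠ t) (hi : p i = i) (hj : p j = j) : close b t (cup i j p) = cup i j (close b t p) := by
  have hc : p i = i ∧ p j = j := ⟨hi, hj⟩
  have hb : cup i j p b ≠ t := by
    rw [cup_apply_pos hc, if_neg hib.symm, if_neg hjb.symm]
    exact h'
  have hp := p.inv
  have e1 : close b t p i = i := by
    rw [close_apply hbt h h']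
    grind
  have e2 : close b t p j = j := by
    rw [close_apply hbt h h']
    grind
  ext x
  rw [close_apply hbt (bo_cup hib hit hjb hjt h) hb, cup_apply_pos ⟨e1, e2⟩, close_apply hbt h h']
  simp only [cup_apply_pos hc]
  obtain ⟨h1, h2⟩ := h
  grind

theorem close_cut (hbt : b ≠ t) (hib : i ≠ b) (hit : i ≠ t) (hjb : j ≠ b) (hjt : j ≠ t) (h : BO b t p)
    (h' : p b ≠ t) (hij : i ≠ j) (hi : p i ≠ i) (hj : p j ≠ j) (hpij : p i ≠ j)
    (hn : close b t p i ≠ j) :
    cut i j p b ≠ t ∧ close b t (cut i j p) = cut i j (close b t p) := by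
  have hc : i ≠ j ∧ p i ≠ i ∧ p j ≠ j ∧ p i ≠ j := ⟨hij, hi, hj, hpij⟩
  have hp := p.inv
  have hn' := hn
  rw [close_apply hbt h h'] at hn'
  have hb : cut i j p b ≠ t := by
    rw [cut_apply_pos hc]
    grind
  have e1 : close b t p i ≠ i := by
    rw [close_apply hbt h h']
    obtain ⟨h1, h2⟩ := h
    grind
  have e2 : close b t p j ≠ j := by
    rw [close_apply hbt h h']
    obtain ⟨h1, h2⟩ := h
    grind
  refine ⟨hb, ?_⟩
  ext x
  rw [close_apply hbt (bo_cut hib hit hjb hjt h) hb, cut_apply_pos ⟨hij, e1, e2, hn⟩]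
  simp only [close_apply hbt h h', cut_apply_pos hc]
  obtain ⟨h1, h2⟩ := h
  grind (splits := 30)

/-- the two lines of the ends, exchanged. -/
theorem close_swap_self (hbt : b ≠ t) (h : BO b t p) (h' : p b ≠ t) (hib : i ≠ b) (hit : i ≠ t) (hjb : j ≠ b)
    (hjt : j ≠ t) (hn : close b t p i = j) (hij : i ≠ j) (hpij : p i ≠ j) :
    swap i j (close b t p) = close b t p ∧ cut i j p b = t := by
  have hp := p.inv
  have hn' := hn
  rw [close_apply hbt h h'] at hn'
  obtain ⟨h1, h2⟩ := id h
  have hc : i ≠ j ∧ p i ≠ i ∧ p j ≠ j ∧ p i ≠ j := by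
    refine ⟨hij, ?_, ?_, hpij⟩
    · grind
    · grind
  refine ⟨?_, ?_⟩
  · ext x
    rw [swap_apply]
    have hc' := (close b t p).inv
    have hn2 : close b t p j = i := by rw [← hn, (close b t p).inv]
    by_cases hx : x = i
    · rw [hx, Equiv.swap_apply_left, hn2, Equiv.swap_apply_left, hn]
    · by_cases hx' : x = j
      · rw [hx', Equiv.swap_apply_right, hn, Equiv.swap_apply_right, hn2]
      · rw [Equiv.swap_apply_of_ne_of_ne hx hx']
        apply Equiv.swap_apply_of_ne_of_ne
        · intro e
          apply hx'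
          rw [← hn, ← e, hc']
        · intro e
          apply hx
          rw [← hn2, ← e, hc']
  · rw [cut_apply_pos hc]
    grind

theorem close_fix (hbt : b ≠ t) (h : BO b t p) (h' : p b ≠ t) (hib : i ≠ b) (hit : i ≠ t) :
    close b t p i = i ↔ p i = i := by
  have hp := p.inv
  rw [close_apply hbt h h']
  obtain ⟨h1, h2⟩ := h
  grind

theorem close_pair (hbt : b ≠ t) (h : BO b t p) (h' : p b ≠ t) (hib : i ≠ b) (hit : i ≠ t) (hjb : j ≠ b)
    (hjt : j ≠ t) (hij : i ≠ j) (hp' : p i = j) : close b t p i = j := by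
  have hp := p.inv
  rw [close_apply hbt h h']
  obtain ⟨h1, h2⟩ := h
  grind

/-- the joined states. -/
theorem opn_joined {G : Pat α → K} (h : p b = t) : opn b t G p = 0 := opn_neg fun h' => h'.2 h

theorem dead_or_full_of_cut (hb : cut i j p b = t) (hij : i ≠ j) (hib : i ≠ b) (hit : i ≠ t)
    (hjb : j ≠ b) (hjt : j ≠ t) (hbt : b ≠ t) (G : Pat α → K) :
    opn b t G (cut i j p) = 0 ∧ opn b t G (cup i j (cut i j p)) = 0 := by
  refine ⟨opn_joined hb, ?_⟩
  by_cases hc : cut i j p i = i ∧ cut i j p j = j
  · apply opn_joined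
    rw [cup_apply_pos hc, if_neg hib.symm, if_neg hjb.symm]
    exact hb
  · rw [cup_neg hc]
    exact opn_joined hb

end prim

theorem commO_R {b t i j : α} (w : Wt K) (hbt : b ≠ t) (hij : i ≠ j) (hib : i ≠ b) (hit : i ≠ t)
    (hjb : j ≠ b) (hjt : j ≠ t) : CommO b t (R w i j) where
  pres := by
    intro F G h p hp
    simp only [R]
    rw [h p hp, h _ (bo_cup hib hit hjb hjt hp), h _ (bo_swap hib hit hjb hjt hp),
      h _ (bo_cut hib hit hjb hjt hp), h _ (bo_cup hib hit hjb hjt (bo_cut hib hit hjb hjt hp))]
  comm G p hp := by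
    by_cases h' : p b = t
    · -- joined
      have g := good_R w hbt hij hib hit hjb hjt
      rw [opn_joined h']
      rcases full_or_dead h' with rfl | hd
      · rw [g.fullv _ (fun q hq => opn_joined hq.1)]
        exact opn_joined h'
      · exact g.dead _ (fun q hq => opn_joined hq.1) p hd
    · rw [opn_pos hp h']
      have fi := close_fix hbt hp h' hib hit
      have fj := close_fix hbt hp h' hjb hjt
      by_cases hi : p i = i
      · by_cases hj : p j = j
        · have hbc : cup i j p b ≠ t := by
            rw [cup_apply_pos ⟨hi, hj⟩, if_neg hib.symm, if_neg hjb.symm]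
            exact h'
          rw [R_e hi hj rfl, R_e (fi.2 hi) (fj.2 hj) rfl, opn_pos hp h',
            opn_pos (bo_cup hib hit hjb hjt hp) hbc, close_cup hbt hib hit hjb hjt hp h' hi hj]
        · obtain ⟨h3, h4⟩ := close_swap hbt hib hit hjb hjt hp h'
          rw [R_r hi hj rfl, R_r (fi.2 hi) (fun e => hj (fj.1 e)) rfl, opn_pos hp h',
            opn_pos (bo_swap hib hit hjb hjt hp) h3, h4]
      · obtain ⟨h3, h4⟩ := close_swap hbt hib hit hjb hjt hp h'
        by_cases hj : p j = j
        · rw [R_l hi hj rfl, R_l (fun e => hi (fi.1 e)) (fj.2 hj) rfl, opn_pos hp h',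
            opn_pos (bo_swap hib hit hjb hjt hp) h3, h4]
        · by_cases hpij : p i = j
          · rw [R_p hij hpij, R_p hij (close_pair hbt hp h' hib hit hjb hjt hij hpij), opn_pos hp h']
          · by_cases hn : close b t p i = j
            · obtain ⟨e1, e2⟩ := close_swap_self hbt hp h' hib hit hjb hjt hn hij hpij
              obtain ⟨e3, e4⟩ := dead_or_full_of_cut e2 hij hib hit hjb hjt hbt G
              rw [R_d hi hj hpij rfl rfl rfl, R_p hij hn, opn_pos (bo_swap hib hit hjb hjt hp) h3, h4, e1,
                e3, e4]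
              ring
            · obtain ⟨e1, e2⟩ := close_cut hbt hib hit hjb hjt hp h' hij hi hj hpij hn
              have hc : i ≠ j ∧ p i ≠ i ∧ p j ≠ j ∧ p i ≠ j := ⟨hij, hi, hj, hpij⟩
              have e3 : cut i j p i = i := by rw [cut_apply_pos hc, if_pos rfl]
              have e4 : cut i j p j = j := by rw [cut_apply_pos hc, if_neg hij.symm, if_pos rfl]
              have hbc : cup i j (cut i j p) b ≠ t := by
                rw [cup_apply_pos ⟨e3, e4⟩, if_neg hib.symm, if_neg hjb.symm]
                exact e1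
              rw [R_d hi hj hpij rfl rfl rfl,
                R_d (fun e => hi (fi.1 e)) (fun e => hj (fj.1 e)) hn rfl rfl rfl,
                opn_pos (bo_swap hib hit hjb hjt hp) h3, h4, opn_pos (bo_cut hib hit hjb hjt hp) e1, e2,
                opn_pos (bo_cup hib hit hjb hjt (bo_cut hib hit hjb hjt hp)) hbc,
                close_cup hbt hib hit hjb hjt (bo_cut hib hit hjb hjt hp) e1 e3 e4, e2]

theorem commO_bc {b t c : α} (hbt : b ≠ t) (hcb : c ≠ b) (hct : c ≠ t) : CommO (K := K) b t (bc c b) where
  pres := by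
    intro F G h p hp
    simp only [bc]
    rw [if_neg hp.1, if_neg hp.1, h p hp]
  comm G p hp := by
    by_cases h' : p b = t
    · rw [opn_joined h']
      simp only [bc]
      rw [if_neg hp.1, opn_joined h', ite_self]
    · rw [opn_pos hp h']
      have hb : close b t p b ≠ b := by
        rw [close_apply hbt hp h', if_pos rfl]
        exact hbt.symm
      simp only [bc]
      rw [if_neg hp.1, if_neg hb, opn_pos hp h']
      by_cases hc : p c = c
      · rw [if_pos hc, if_pos ((close_fix hbt hp h' hcb hct).2 hc)]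
      · rw [if_neg hc, if_neg (fun e => hc ((close_fix hbt hp h' hcb hct).1 e))]

theorem commO_tc {b t c : α} (hbt : b ≠ t) (hcb : c ≠ b) (hct : c ≠ t) : CommO (K := K) b t (tc c t) where
  pres := by
    intro F G h p hp
    simp only [tc]
    rw [if_neg hp.2, if_neg hp.2, h p hp]
  comm G p hp := by
    by_cases h' : p b = t
    · rw [opn_joined h']
      simp only [tc]
      rw [if_neg hp.2, opn_joined h', ite_self]
    · rw [opn_pos hp h']
      have ht : close b t p t ≠ t := by
        rw [close_apply hbt hp h', if_neg hbt.symm, if_pos rfl]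
        exact hbt
      simp only [tc]
      rw [if_neg hp.2, if_neg ht, opn_pos hp h']
      by_cases hc : p c = c
      · rw [if_pos hc, if_pos ((close_fix hbt hp h' hcb hct).2 hc)]
      · rw [if_neg hc, if_neg (fun e => hc ((close_fix hbt hp h' hcb hct).1 e))]

theorem commO_bot {b t i j : α} (κ k : K) (hbt : b ≠ t) (hib : i ≠ b) (hit : i ≠ t)
    (hjb : j ≠ b) (hjt : j ≠ t) : CommO b t (bot κ k i j b) where
  pres := by
    intro F G h p hp
    simp only [bot]
    rw [if_neg hp.1, if_neg hp.1, h p hp, h _ (bo_cup hib hit hjb hjt hp)]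
  comm G p hp := by
    by_cases h' : p b = t
    · rw [opn_joined h']
      simp only [bot]
      rw [if_neg hp.1, opn_joined h']
      have e : opn b t G (cup i j p) = 0 := by
        apply opn_joined
        by_cases hc : p i = i ∧ p j = j
        · rw [cup_apply_pos hc, if_neg hib.symm, if_neg hjb.symm]
          exact h'
        · rw [cup_neg hc]
          exact h'
      rw [e]
      simp
    · rw [opn_pos hp h']
      have hb : close b t p b ≠ b := by
        rw [close_apply hbt hp h', if_pos rfl]
        exact hbt.symm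
      have fi := close_fix hbt hp h' hib hit
      have fj := close_fix hbt hp h' hjb hjt
      by_cases hi : p i = i
      · by_cases hj : p j = j
        · have hbc : cup i j p b ≠ t := by
            rw [cup_apply_pos ⟨hi, hj⟩, if_neg hib.symm, if_neg hjb.symm]
            exact h'
          rw [bot_1 hi hj hp.1 rfl, bot_1 (fi.2 hi) (fj.2 hj) hb rfl, opn_pos hp h',
            opn_pos (bo_cup hib hit hjb hjt hp) hbc, close_cup hbt hib hit hjb hjt hp h' hi hj]
        · rw [bot_z (Or.inr hj), bot_z (Or.inr fun e => hj (fj.1 e))]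
      · rw [bot_z (Or.inl hi), bot_z (Or.inl fun e => hi (fi.1 e))]

theorem commO_top {b t i j : α} (κ k : K) (hbt : b ≠ t) (hij : i ≠ j) (hib : i ≠ b) (hit : i ≠ t)
    (hjb : j ≠ b) (hjt : j ≠ t) : CommO b t (top κ k i j t) where
  pres := by
    intro F G h p hp
    simp only [top]
    rw [if_neg hp.2, if_neg hp.2, if_neg hp.2, if_neg hp.2, h p hp, h _ (bo_cut hib hit hjb hjt hp)]
  comm G p hp := by
    by_cases h' : p b = t
    · have g := good_top (K := K) κ k hbt hib hit hjb hjt
      rw [opn_joined h']
      rcases full_or_dead h' with rfl | hd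
      · rw [g.fullv _ (fun q hq => opn_joined hq.1)]
        exact opn_joined h'
      · exact g.dead _ (fun q hq => opn_joined hq.1) p hd
    · rw [opn_pos hp h']
      have ht : close b t p t ≠ t := by
        rw [close_apply hbt hp h', if_neg hbt.symm, if_pos rfl]
        exact hbt
      have fi := close_fix hbt hp h' hib hit
      have fj := close_fix hbt hp h' hjb hjt
      by_cases hi : p i = i
      · by_cases hj : p j = j
        · rw [top_0 hi hj, top_0 (fi.2 hi) (fj.2 hj), opn_pos hp h']
        · rw [top_z1 hi hj hp.2, top_z1 (fi.2 hi) (fun e => hj (fj.1 e)) ht]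
      · by_cases hj : p j = j
        · rw [top_z2 hi hj hp.2, top_z2 (fun e => hi (fi.1 e)) (fj.2 hj) ht]
        · by_cases hpij : p i = j
          · rw [top_z3 hij hpij, top_z3 hij (close_pair hbt hp h' hib hit hjb hjt hij hpij)]
          · by_cases hn : close b t p i = j
            · obtain ⟨e1, e2⟩ := close_swap_self hbt hp h' hib hit hjb hjt hn hij hpij
              rw [top_d hi hj hpij rfl, top_z3 hij hn, opn_joined e2, mul_zero]
            · obtain ⟨e1, e2⟩ := close_cut hbt hib hit hjb hjt hp h' hij hi hj hpij hn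
              rw [top_d hi hj hpij rfl, top_d (fun e => hi (fi.1 e)) (fun e => hj (fj.1 e)) hn rfl,
                opn_pos (bo_cut hib hit hjb hjt hp) e1, e2]

theorem commO_M {b t a : α} (w : α → Wt K) (hbt : b ≠ t) (hab : a ≠ b) (hat : a ≠ t) {L : List α}
    (hL : ∀ j ∈ L, j ≠ a ∧ j ≠ b ∧ j ≠ t) : CommO b t (M w a L) := by
  induction L with
  | nil => exact CommO.id b t
  | cons j L ih =>
    have h1 := hL j (by simp)
    exact (commO_R (w j) hbt h1.1.symm hab hat h1.2.1 h1.2.2).comp
      (ih fun i hi => hL i (by simp [hi]))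

theorem commO_TT {b t l r : α} (kb kb' kt kt' : K) (wr wl : α → Wt K) (hbt : b ≠ t) (hlr : l ≠ r)
    (hlb : l ≠ b) (hlt : l ≠ t) (hrb : r ≠ b) (hrt : r ≠ t) {L : List α}
    (hL : ∀ j ∈ L, j ≠ l ∧ j ≠ r ∧ j ≠ b ∧ j ≠ t) :
    CommO b t (TT kb kb' kt kt' wr wl l r b t L) :=
  (commO_bot kb kb' hbt hlb hlt hrb hrt).comp
    ((commO_M wr hbt hrb hrt fun j hj => ⟨(hL j hj).2.1, (hL j hj).2.2⟩).comp
      ((commO_M wl hbt hlb hlt fun j hj => ⟨(hL j hj).1, (hL j hj).2.2⟩).comp
        (commO_top kt kt' hbt hlr hlb hlt hrb hrt)))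

theorem commO_CC {b t a : α} (w : α → Wt K) (hbt : b ≠ t) (hab : a ≠ b) (hat : a ≠ t) {L : List α}
    (hL : ∀ j ∈ L, j ≠ a ∧ j ≠ b ∧ j ≠ t) : CommO b t (CC w a b t L) :=
  (commO_bc hbt hab hat).comp ((commO_M w hbt hab hat hL).comp (commO_tc hbt hab hat))

/-! ### The majorant -/

/-- Every admissible dead state comes from an admissible live state by closing. -/
def Opens (A : Pat α → Prop) (b t : α) : Prop :=
  ∀ q, Dead b t q → A q → ∃ p, BO b t p ∧ p b ≠ t ∧ A p ∧ close b t p = q

theorem close_dead {b t : α} (hbt : b ≠ t) {p : Pat α} (h : BO b t p) (h' : p b ≠ t) :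
    Dead b t (close b t p) := by
  have hp := p.inv
  refine ⟨?_, p b, h.1, h', ?_⟩
  · rw [close_apply hbt h h', if_pos rfl]
  · rw [close_apply hbt h h', if_neg h.1, if_neg h', if_pos rfl]
    intro e
    exact hbt (p.inj e).symm

section major

variable [Finite α] {b t : α} {A : Pat α → Prop} {X : (Pat α → ℝ) → (Pat α → ℝ)}

/-- A function on the live states with both ends occupied that increases under the operator is not positive. -/
theorem live_major (hbt : b ≠ t) (hf : A (full b t)) (he : A Pat.empty) (hP : PosOp X) (hX : Good b t X)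
    (PX : Pres A A X) {β : ℝ}
    (hβ : ∀ m, FF b t X (m + 1) Pat.empty - FF b t X m Pat.empty ≤ β)
    (hβ2 : Tendsto (fun m => FF b t X (m + 1) Pat.empty - FF b t X m Pat.empty) atTop (𝓝 β))
    (hR : Reach A b t X) (hC : CoReach A b t X) {H : Pat α → ℝ}
    (h0 : ∀ p, ¬ (BO b t p ∧ Live b t p ∧ A p) → H p ≤ 0)
    (h1 : ∀ p, BO b t p → Live b t p → A p → H p ≤ X H p) (p : Pat α) : H p ≤ 0 := by
  classical
  have : Fintype (Pat α) := Fintype.ofFinite _
  have half := half_lim hbt hf he hP hX PX hβ hβ2 hR
  set F := Flim b t A X with hF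
  have hge : ∀ m p, A p → p ≠ Pat.empty → FF b t X m p ≤ F p := by
    intro m p hp hne
    obtain ⟨K, hK⟩ := FF_bdd hP hX hβ hR hp hne
    rw [hF]
    unfold Flim
    rw [if_pos ⟨hp, hne⟩]
    exact le_ciSup (f := fun m => FF b t X m p) ⟨K, by rintro _ ⟨m, rfl⟩; exact hK m⟩ m
  have hpos : ∀ p, Live b t p → A p → 0 < F p := by
    intro p hl hp
    obtain ⟨c, hc⟩ := hC p hl hp
    exact lt_of_lt_of_le hc (hge c p hp hl.2)
  have hnn : ∀ p, 0 ≤ F p := by
    intro p
    by_cases h : A p ∧ p ≠ Pat.empty
    · exact (FF_nonneg hP 0 p).trans (hge 0 p h.1 h.2)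
    · rw [hF]
      unfold Flim
      rw [if_neg h]
  set C : ℝ := ∑ q, |H q| / F q with hCdef
  have hC0 : 0 ≤ C := Finset.sum_nonneg fun q _ => div_nonneg (abs_nonneg _) (hnn q)
  have key : ∀ m p, Live b t p → A p → H p ≤ C * (F p - FF b t X m p) := by
    intro m
    induction m with
    | zero =>
      intro p hl hp
      have h0 : FF b t X 0 p = 0 := by
        apply ind_ne
        rintro rfl
        apply hl.1
        rw [full_apply, if_pos rfl]
      rw [h0, sub_zero]
      have h1 : |H p| / F p ≤ C :=
        Finset.single_le_sum (f := fun q => |H q| / F q)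
          (fun q _ => div_nonneg (abs_nonneg _) (hnn q)) (Finset.mem_univ p)
      exact (le_abs_self _).trans ((div_le_iff₀ (hpos p hl hp)).1 h1)
    | succ m ih =>
      intro p hl hp
      by_cases hbo : BO b t p
      swap
      · refine (h0 p fun h => hbo h.1).trans ?_
        exact mul_nonneg hC0 (sub_nonneg.2 (hge _ p hp hl.2))
      -- the difference
      let D : Pat α → ℝ := fun q => if Live b t q ∧ A q then F q - FF b t X m q else 0
      have hD : ∀ q, H q ≤ C * D q := by
        intro q
        by_cases hq : Live b t q ∧ A q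
        · have e : D q = F q - FF b t X m q := if_pos hq
          rw [e]
          exact ih q hq.1 hq.2
        · have e : D q = 0 := if_neg hq
          rw [e, mul_zero]
          exact h0 q fun h => hq h.2
      have h2 : X H p ≤ X (fun q => C * D q) p := hP.mono hX.lin hD p
      rw [PosOp.smul hX.lin C D] at h2
      refine (h1 p hbo hl hp).trans (h2.trans (le_of_eq ?_))
      -- X D = F - FF (m + 1)
      have e1 : ∀ r, A r → (fun r => F r - FF b t X m r) r =
          (fun r => D r + (F Pat.empty - FF b t X m Pat.empty) * (dE : Pat α → ℝ) r) r := by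
        intro r hr
        by_cases hr0 : r = Pat.empty
        · subst hr0
          simp only
          rw [dE_empty]
          have e : D Pat.empty = 0 := if_neg (fun h => h.1.2 rfl)
          rw [e]
          ring
        · simp only
          rw [dE_ne hr0, mul_zero, add_zero]
          by_cases hrb : r b = t
          · have e : D r = 0 := if_neg (fun h => h.1.1 hrb)
            rw [e]
            rcases full_or_dead hrb with rfl | hd
            · rw [half.fullv, FF_full hX, sub_self]
            · rw [half.dead r hr hd, FF_dead hX m r hd, sub_self]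
          · have e : D r = F r - FF b t X m r := if_pos ⟨⟨hrb, hr0⟩, hr⟩
            rw [e]
      have h3 := PX _ _ e1 p hp
      rw [hX.lin.addSmul, hX.dE, hX.lin.sub] at h3
      simp only at h3
      rw [dE_ne hl.2, mul_zero, add_zero, half.eq p hp hl.2] at h3
      show C * X D p = _
      rw [← h3, FF_succ]
  by_cases hp : Live b t p ∧ A p
  · have h2 : Tendsto (fun m => C * (F p - FF b t X m p)) atTop (𝓝 (C * (F p - F p))) :=
      (tendsto_const_nhds.sub (Flim_tendsto hP hX hβ hR hp.2 hp.1.2)).const_mul _
    rw [sub_self, mul_zero] at h2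
    exact ge_of_tendsto' h2 fun m => key m p hp.1 hp.2
  · exact h0 p fun h => hp h.2

/-- **The majorant on the dead states.**  A nonnegative function supported on the admissible dead states that
increases under the operator there vanishes. -/
theorem dead_major (hbt : b ≠ t) (hf : A (full b t)) (he : A Pat.empty) (hP : PosOp X) (hX : Good b t X)
    (PX : Pres A A X) {β : ℝ}
    (hβ : ∀ m, FF b t X (m + 1) Pat.empty - FF b t X m Pat.empty ≤ β)
    (hβ2 : Tendsto (fun m => FF b t X (m + 1) Pat.empty - FF b t X m Pat.empty) atTop (𝓝 β))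
    (hR : Reach A b t X) (hC : CoReach A b t X) (hO : CommO b t X) (hS : Opens A b t) {G : Pat α → ℝ}
    (h0 : ∀ p, 0 ≤ G p) (hs : ∀ p, ¬ (Dead b t p ∧ A p) → G p = 0)
    (h1 : ∀ p, Dead b t p → A p → G p ≤ X G p) (p : Pat α) : G p = 0 := by
  classical
  set H : Pat α → ℝ := fun q => if A q then opn b t G q else 0 with hH
  have hHz : ∀ q, ¬ (BO b t q ∧ Live b t q ∧ A q) → H q ≤ 0 := by
    intro q hq
    rw [hH]
    simp only
    split_ifs with hA
    · rw [opn_neg]
      rintro ⟨h2, h3⟩
      refine hq ⟨h2, ⟨h3, ?_⟩, hA⟩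
      rintro rfl
      exact h2.1 rfl
    · exact le_rfl
  have hle : ∀ q, H q ≤ 0 := by
    apply live_major hbt hf he hP hX PX hβ hβ2 hR hC hHz
    intro q hbo hl hA
    have e1 : H q = G (close b t q) := by
      rw [hH]
      simp only
      rw [if_pos hA, opn_pos hbo hl.1]
    have e2 : X H q = X G (close b t q) := by
      have h2 : X H q = X (opn b t G) q := by
        apply PX _ _ _ q hA
        intro r hr
        rw [hH]
        simp only
        rw [if_pos hr]
      rw [h2, hO.comm G q hbo, opn_pos hbo hl.1]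
    rw [e1, e2]
    by_cases hd : A (close b t q)
    · exact h1 _ (close_dead hbt hbo hl.1) hd
    · rw [hs _ fun h => hd h.2]
      exact hP _ h0 _
  by_cases hp : Dead b t p ∧ A p
  · obtain ⟨q, h2, h3, h4, h5⟩ := hS p hp.1 hp.2
    have h6 := hle q
    rw [hH] at h6
    simp only at h6
    rw [if_pos h4, opn_pos h2 h3, h5] at h6
    exact le_antisymm h6 (h0 p)
  · exact hs p hp

/-- **Injectivity on the dead states.** -/
theorem dead_inj (hbt : b ≠ t) (hf : A (full b t)) (he : A Pat.empty) (hP : PosOp X) (hX : Good b t X)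
    (PX : Pres A A X) {β : ℝ}
    (hβ : ∀ m, FF b t X (m + 1) Pat.empty - FF b t X m Pat.empty ≤ β)
    (hβ2 : Tendsto (fun m => FF b t X (m + 1) Pat.empty - FF b t X m Pat.empty) atTop (𝓝 β))
    (hR : Reach A b t X) (hC : CoReach A b t X) (hO : CommO b t X) (hS : Opens A b t) {G : Pat α → ℝ}
    (hs : ∀ p, ¬ (Dead b t p ∧ A p) → G p = 0)
    (h1 : ∀ p, Dead b t p → A p → X G p = G p) (p : Pat α) : G p = 0 := by
  have h := dead_major hbt hf he hP hX PX hβ hβ2 hR hC hO hS (G := fun q => |G q|)
    (fun q => abs_nonneg _) (fun q hq => by rw [hs q hq, abs_zero]) (by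
      intro q hq hA
      have h2 : |X G q| ≤ X (fun r => |G r|) q := by
        rw [abs_le]
        constructor
        · have h3 := hP.mono hX.lin (F := fun r => (-1 : ℝ) * |G r|) (G := G)
            (fun r => by
              have := neg_abs_le (G r)
              linarith) q
          rw [PosOp.smul hX.lin (-1) (fun r => |G r|)] at h3
          linarith
        · exact hP.mono hX.lin (fun r => le_abs_self _) q
      rw [h1 q hq hA] at h2
      exact h2) p
  exact abs_eq_zero.1 h

end major

end Pool.Agent.EXL.HS
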