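import Pool.Agent.NUZ.InjD
import Pool.Agent.EXL.Ident
import Pool.Agent.EXL.Reach

/-!
# NUL/InjDN (helper15): the honeycomb column on the dead states
-/

set_option autoImplicit false

namespace Pool.Agent.EXL

open _root_.Pool.Agent.EXL.Pat Site HexObs Filter Topology

variable {N : ℕ}

/-- opening: the walk is cut open on both sides of the arc from x to y. -/
def openAt {α : Type*} [DecidableEq α] (b t x y : α) (q : Pat α) (hb : q b = t) (hx : q x = y) (h1 : x ≠ b)
    (h2 : x ≠ t) (h3 : y ≠ b) (h4 : y ≠ t) (h5 : b ≠ t) (h6 : x ≠ y) : Pat α where
  f z := if z = b then x else if z = x then b else if z = y then t else if z = t then y else q z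
  inv z := by
    have hq := q.inv
    grind

theorem opens_AN (N : ℕ) : HS.Opens (AN N) fl tp := by
  classical
  intro q hd hA
  obtain ⟨hj, z, hz1, hz2, hz3⟩ := hd
  have hax := AN_axE hA
  -- the lowest occupied row
  have hS : (occ q).Nonempty := by
    cases z with
    | fl => exact absurd rfl hz1
    | tp => exact absurd rfl hz2
    | row k => exact ⟨k, mem_occ.2 hz3⟩
    | ax k => exact absurd (hax k) hz3
  obtain ⟨i, hiS, himin⟩ : ∃ i ∈ occ q, ∀ k ∈ occ q, i ≤ k :=
    ⟨(occ q).min' hS, Finset.min'_mem _ _, fun k hk => Finset.min'_le _ _ hk⟩
  have hi := mem_occ.1 hiS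
  obtain ⟨j, hij⟩ : ∃ j, q (row i) = row j := by
    rcases hy : q (row i) with _ | _ | k | k
    · exfalso
      have h1 := q.inv (row i)
      rw [hy, hj] at h1
      exact (row_ne_tp i) h1.symm
    · exfalso
      have h1 := q.inv (row i)
      have h2 : q tp = fl := by rw [← hj, q.inv]
      rw [hy, h2] at h1
      exact (row_ne_fl i) h1.symm
    · exact ⟨k, rfl⟩
    · exact absurd hy (not_ax hax (fun k => (ax_ne_row k i).symm) k)
  have hne : row i ≠ row j := by
    rw [← hij]
    exact fun e => hi e.symm
  have hji : q (row j) = row i := by rw [← hij, q.inv]
  have hlt : i < j := by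
    have h1 : j ∈ occ q := mem_occ.2 (by rw [hji]; exact hne)
    exact lt_of_le_of_ne (himin j h1) (fun e => hne (by rw [e]))
  have hqt : q tp = fl := by rw [← hj, q.inv]
  set p := openAt fl tp (row i) (row j) q hj hij (row_ne_fl i) (row_ne_tp i) (row_ne_fl j) (row_ne_tp j)
    fl_ne_tp hne with hp
  have pa : ∀ z, p z = if z = fl then row i else if z = row i then fl else if z = row j then tp
      else if z = tp then row j else q z := fun z => rfl
  have p1 : p fl = row i := by rw [pa, if_pos rfl]
  have p2 : p (row i) = fl := by rw [← p1, p.inv]
  have p3 : p (row j) = tp := by rw [pa, if_neg (row_ne_fl j), if_neg hne.symm, if_pos rfl]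
  have p4 : p tp = row j := by rw [← p3, p.inv]
  have p5 : ∀ z, z ≠ fl → z ≠ tp → z ≠ row i → z ≠ row j → p z = q z := by
    intro z h1 h2 h3 h4
    rw [pa, if_neg h1, if_neg h3, if_neg h4, if_neg h2]
  have hbo : HS.BO fl tp p := ⟨by rw [p1]; exact row_ne_fl i, by rw [p4]; exact row_ne_tp j⟩
  have hnj : p fl ≠ tp := by rw [p1]; exact row_ne_tp i
  refine ⟨p, hbo, hnj, ⟨?_, ?_⟩, ?_⟩
  · intro x hx
    have hx' : ∃ k, x = ax k := by
      by_contra h
      push Not at h
      exact hx h
    obtain ⟨k, rfl⟩ := hx'
    rw [p5 _ (ax_ne_fl k) (ax_ne_tp k) (ax_ne_row k i) (ax_ne_row k j)]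
    exact hax k
  · -- planar
    intro a b hab hba
    have low : ∀ k : Fin N, q (row k) ≠ row k → i ≤ k := fun k hk => himin k (mem_occ.2 hk)
    have nc := hA.nc
    -- sites by cases
    have rfl0 : rk (fl : Site N) = 0 := rfl
    have rtp : rk (tp : Site N) = 2 * N + 2 := rfl
    have rrow : ∀ k : Fin N, rk (row k) = 2 * (k : ℤ) + 2 := fun k => rfl
    have rax : ∀ k : Fin 6, rk (ax k : Site N) = -1 - (k : ℤ) := fun k => rfl
    have pax : ∀ k, p (ax k) = ax k := fun k => by
      rw [p5 _ (ax_ne_fl k) (ax_ne_tp k) (ax_ne_row k i) (ax_ne_row k j)]; exact hax k
    have hiN := i.2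
    have hjN := j.2
    have hlt' : (i : ℤ) < j := by exact_mod_cast hlt
    rcases a with _ | _ | a | a
    · -- a = fl: the arc from fl to row i
      rw [p1] at hba ⊢
      rcases b with _ | _ | b | b
      · rw [rfl0] at hab; omega
      · rw [rtp, rrow] at hba; omega
      · rw [rrow, rrow] at hba
        have hb : q (row b) = row b := by
          by_contra h
          have h1 := low b h
          have : (i : ℤ) ≤ b := by exact_mod_cast h1
          omega
        have hbi : row b ≠ row i := by
          intro e
          have : b = i := by simpa using e
          rw [this] at hba; omega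
        have hbj : row b ≠ row j := by
          intro e
          have : b = j := by simpa using e
          rw [this] at hba
          omega
        rw [p5 _ (row_ne_fl b) (row_ne_tp b) hbi hbj, hb, rrow, rrow]
        rw [rfl0, rrow] at hab
        exact ⟨hab, hba⟩
      · rw [pax]
        exact ⟨hab, hba⟩
    · rw [p4, rtp] at *
      rw [rrow] at hba
      omega
    · by_cases hai : a = i
      · rw [hai, p2, rfl0] at hba
        rw [hai, rrow] at hab
        omega
      by_cases haj : a = j
      · -- the arc from row j to tp
        rw [haj] at hab
        rw [haj, p3] at hba ⊢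
        rcases b with _ | _ | b | b
        · rw [rfl0, rrow] at hab; omega
        · rw [rtp] at hba; omega
        · have hbi : row b ≠ row i := by
            intro e
            have : b = i := by simpa using e
            rw [this, rrow, rrow] at hab; omega
          have hbj : row b ≠ row j := by
            intro e
            have : b = j := by simpa using e
            rw [this] at hab; omega
          rw [p5 _ (row_ne_fl b) (row_ne_tp b) hbi hbj]
          by_cases hb : q (row b) = row b
          · rw [hb]
            exact ⟨hab, hba⟩
          · rcases hy : q (row b) with _ | _ | k | k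
            · exfalso
              have h1 := q.inv (row b)
              rw [hy, hj] at h1
              exact (row_ne_tp b) h1.symm
            · exfalso
              have h1 := q.inv (row b)
              rw [hy, hqt] at h1
              exact (row_ne_fl b) h1.symm
            · -- the arc from b to k lies above row j
              have hk : q (row k) ≠ row k := by
                rw [← hy, q.inv, hy]
                intro e
                apply hb
                rw [hy]
                exact e.symm
              have h1 := low k hk
              have h2 : k ≠ i := by
                intro e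
                rw [e] at hy
                have h3 := q.inv (row b)
                rw [hy, hij] at h3
                exact hbj h3.symm
              have h3 : (i : ℤ) < k := by
                have : i < k := lt_of_le_of_ne h1 (Ne.symm h2)
                exact_mod_cast this
              by_contra hcon
              have h4 : ¬ (rk (row j) < rk (row k : Site N)) := by
                intro h5
                apply hcon
                refine ⟨h5, ?_⟩
                rw [rrow, rtp]
                have := k.2
                omega
              have h5 : k ≠ j := by
                intro e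
                rw [e] at hy
                have h3 := q.inv (row b)
                rw [hy, hji] at h3
                exact hbi h3.symm
              have h6 : (k : ℤ) < j := by
                rw [rrow, rrow] at h4
                have h7 : (k : ℤ) ≠ j := by
                  intro e
                  apply h5
                  apply Fin.ext
                  exact_mod_cast e
                omega
              have h7 := nc (row i) (row k) (by rw [rrow, rrow]; omega) (by rw [hij, rrow, rrow]; omega)
              rw [show q (row k) = row b by rw [← hy, q.inv], hij] at h7
              omega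
            · exact absurd hy (not_ax hax (fun k => (ax_ne_row k b).symm) k)
        · rw [rax, rrow] at hab
          omega
      · -- the other arcs
        have h1 : row a ≠ row i := fun e => hai (by simpa using e)
        have h2 : row a ≠ row j := fun e => haj (by simpa using e)
        rw [p5 _ (row_ne_fl a) (row_ne_tp a) h1 h2] at hba ⊢
        have h3 := nc (row a) b hab hba
        rcases b with _ | _ | b | b
        · rw [hj, rtp] at h3
          exfalso
          have h4 : ∀ x : Site N, rk x ≤ 2 * N + 2 := by
            intro x
            rcases x with _ | _ | x | x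
            · rw [rfl0]; omega
            · rw [rtp]
            · rw [rrow]; have := x.2; omega
            · rw [rax]; omega
          have := h4 (q (row a))
          omega
        · exfalso
          rw [rtp] at hba
          have h4 : ∀ x : Site N, rk x ≤ 2 * N + 2 := by
            intro x
            rcases x with _ | _ | x | x
            · rw [rfl0]; omega
            · rw [rtp]
            · rw [rrow]; have := x.2; omega
            · rw [rax]; omega
          have := h4 (q (row a))
          omega
        · -- a below b below q a
          by_cases hbi : b = i
          · exfalso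
            have ha : q (row a) ≠ row a := by
              intro e
              rw [e] at hba
              omega
            have h4 := low a ha
            have h5 : (i : ℤ) ≤ a := by exact_mod_cast h4
            rw [hbi, rrow, rrow] at hab
            omega
          · by_cases hbj : b = j
            · exfalso
              have ha : q (row a) ≠ row a := by
                intro e
                rw [e] at hba
                omega
              have h4 := low a ha
              have h5 : (i : ℤ) < a := by
                have : i < a := lt_of_le_of_ne h4 (Ne.symm hai)
                exact_mod_cast this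
              rw [hbj, hji] at h3
              rw [rrow, rrow] at h3
              omega
            · rw [p5 _ (row_ne_fl b) (row_ne_tp b) (fun e => hbi (by simpa using e))
                (fun e => hbj (by simpa using e))]
              exact h3
        · rw [pax]
          exact ⟨hab, hba⟩
    · exfalso
      rw [pax] at hba
      omega
  · ext z
    rw [HS.close_apply fl_ne_tp hbo hnj, p1, p4]
    by_cases h1 : z = fl
    · rw [if_pos h1, h1, hj]
    · rw [if_neg h1]
      by_cases h2 : z = tp
      · rw [if_pos h2, h2, hqt]
      · rw [if_neg h2]
        by_cases h3 : z = row i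
        · rw [if_pos h3, h3, hij]
        · rw [if_neg h3]
          by_cases h4 : z = row j
          · rw [if_pos h4, h4, hji]
          · rw [if_neg h4, p5 _ h1 h2 h3 h4]

theorem commO_colH (N : ℕ) : HS.CommO fl tp (colH N) := by
  rw [colH_eq]
  apply HS.commO_CC
  · simp
  · simp
  · simp
  · intro j hj
    obtain ⟨i, rfl⟩ := mem_rowsL.1 hj
    simp

theorem pres_colH (N : ℕ) : HS.Pres (AN N) (AN N) (colH N) := by
  rw [colH_eq]
  exact presC_N N _ 0

theorem coReach_AN (N : ℕ) : HS.CoReach (AN N) fl tp (colH N) := coReach (fun _ h => AN_axE h)

/-- **The majorant on the dead states for the honeycomb column.** -/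
theorem dead_major_colH (hN : 1 ≤ N) {G : Pat (Site N) → ℝ}
    (h0 : ∀ p, 0 ≤ G p) (hs : ∀ p, ¬ (HS.Dead fl tp p ∧ AN N p) → G p = 0)
    (h1 : ∀ p, HS.Dead fl tp p → AN N p → G p ≤ colH N G p) (p : Pat (Site N)) : G p = 0 := by
  refine HS.dead_major (β := bT N) (by simp) (AN_full N) (AN_empty N) (posOp_colH N) (good_colH N)
    (pres_colH N) ?_ ?_ (reach N) (coReach_AN N) (commO_colH N) (opens_AN N) h0 hs h1 p
  · intro m
    rw [FF_eq, FF_eq, Zm_eq_Zw hN, Zm_eq_Zw hN]
    exact (Zw_step_le hN m).2
  · have h := Zw_step_tendsto hN
    simp only [← Zm_eq_Zw hN, ← FF_eq] at h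
    exact h

/-- **Injectivity on the dead states for the honeycomb column.** -/
theorem dead_inj_colH (hN : 1 ≤ N) {G : Pat (Site N) → ℝ}
    (hs : ∀ p, ¬ (HS.Dead fl tp p ∧ AN N p) → G p = 0)
    (h1 : ∀ p, HS.Dead fl tp p → AN N p → colH N G p = G p) (p : Pat (Site N)) : G p = 0 := by
  refine HS.dead_inj (β := bT N) (by simp) (AN_full N) (AN_empty N) (posOp_colH N) (good_colH N)
    (pres_colH N) ?_ ?_ (reach N) (coReach_AN N) (commO_colH N) (opens_AN N) hs h1 p
  · intro m
    rw [FF_eq, FF_eq, Zm_eq_Zw hN, Zm_eq_Zw hN]
    exact (Zw_step_le hN m).2
  · have h := Zw_step_tendsto hN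
    simp only [← Zm_eq_Zw hN, ← FF_eq] at h
    exact h

/-- the same over the complex numbers. -/
theorem dead_inj_colC (hN : 1 ≤ N) {G : Pat (Site N) → ℂ}
    (hs : ∀ p, ¬ (HS.Dead fl tp p ∧ AN N p) → G p = 0)
    (h1 : ∀ p, HS.Dead fl tp p → AN N p → colC N G p = G p) (p : Pat (Site N)) : G p = 0 := by
  have hsplit := HS.cx_split (good_colC N).lin (colC_ofReal N) G
  have hr := dead_inj_colH hN (G := fun q => (G q).re) (fun q hq => by simp [hs q hq]) (by
    intro q hq hA
    have h2 := h1 q hq hA
    rw [hsplit] at h2
    have := congrArg Complex.re h2
    simpa using this) p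
  have hi := dead_inj_colH hN (G := fun q => (G q).im) (fun q hq => by simp [hs q hq]) (by
    intro q hq hA
    have h2 := h1 q hq hA
    rw [hsplit] at h2
    have := congrArg Complex.im h2
    simpa using this) p
  exact Complex.ext hr hi

end Pool.Agent.EXL
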